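import Pool.Agent.Q225.EqFinal

/-!
# Equality testing on graphs: `f(G) = fc(G)`

`Q225.EqG.cc G n` is the least number of bits of a correct protocol with a fixed schedule
(`Pool/Agent/Q225/EqDefs.lean`), `Q225.EqG.acc G n` is the least worst-case number of bits of a
correct adaptive protocol (`Pool/Agent/Q225/EqDynDefs.lean`), `Q225.EqG.fc G` is the maximum
weight of a fractional packing of cuts.  For every connected graph `G` with at least two vertices
both `cc G n / n` and `acc G n / n` tend to `fc G`.
-/

set_option autoImplicit false

namespace Pool.Agent.Results.MP_bf2f06_lc.EqualsFractionalCutPacking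

open Q225.EqG Filter

/-- **Main theorem**: `f(G) = fc(G)` for every connected graph with at least two vertices. -/
theorem result (V : Type) [Fintype V] [DecidableEq V] (hV : 2 ≤ Fintype.card V)
    (G : SimpleGraph V) (hG : G.Connected) :
    Tendsto (fun n : ℕ => (cc G n : ℝ) / n) atTop (nhds (fc G)) ∧
      Tendsto (fun n : ℕ => (acc G n : ℝ) / n) atTop (nhds (fc G)) := by
  haveI : Nontrivial V := Fintype.one_lt_card_iff_nontrivial.mp (by omega)
  exact ⟨tendsto_fc hG, tendsto_acc hG⟩

end Pool.Agent.Results.MP_bf2f06_lc.EqualsFractionalCutPacking
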